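import Pool.Agent.H62.PR.Stm
import Pool.Graph.R_pool_sql_team_seeded_63374d34.N951.PV.PT2
import Pool.Graph.R_pool_sql_team_seeded_63374d34.N907.PV.NF2

/-!
Project PR (helper62), part L2I, second version (helper66, after helper88 and helper951): the local
condition at `2` has index two, also for `a = 3`, `b = 1` modulo `4`.
-/

set_option autoImplicit false
set_option linter.all false

open Polynomial
open scoped Classical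

namespace Pool.Agent.H66.PR.L2I

open Pool.Agent.N922.PQ Pool.Agent.N803.PQ Pool.Agent.N951.PV

section ring

variable {R : Type} [CommRing R] (ι : ℤ_[2] →+* R) (θ : R) {a b : ℤ}

/-- Case `a = 3`, `b = 1` modulo `4`. -/
theorem pt_two [IsDomain R] (α β k₁ k₂ : ℤ) (ξ r s t : ℤ_[2]) (κ : R)
    (hθ : θ ^ 3 + ((3 + 4 * α : ℤ) : R) * θ + ((1 + 4 * β : ℤ) : R) = 0)
    (gen : ∀ x : R, ∃ p, x = ev ι θ p) (hv : 1 + θ ≠ 0) (hκ : (β : R) + ι ξ = 2 * κ) :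
    ∃ g : R, g ^ 2 = (4 * ι ξ - θ) * (1 + 2 * (((2 * k₁ + 1 : ℤ) : R) * θ +
      ((2 * k₂ + 1 : ℤ) : R) * θ ^ 2) + 4 * (2 * ι r + ι s * θ + ι t * θ ^ 2)) := by
  obtain ⟨S, hS⟩ : ∃ S : ℤ_[2], S = s + k₁ := ⟨_, rfl⟩
  obtain ⟨T, hT⟩ : ∃ T : ℤ_[2], T = t + k₂ := ⟨_, rfl⟩
  have hS' := congrArg ι hS
  have hT' := congrArg ι hT
  rw [map_add, map_intCast] at hS' hT'
  refine pt_aux ι θ (a := 3 + 4 * α) (b := 1 + 4 * β) (a' := 2 * α + 1) (b' := 2 * β) (by ring)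
    (by ring) hθ gen hv ((α : ℤ_[2]) - S) (1 + ξ - T) _ ?_ ?_
  · exact (fun (θ α β ξ s t r : R) => -8 * θ ^ 2 * α ^ 2 * ξ + 8 * θ ^ 2 * α ^ 2 * t - 4 * θ ^ 2 * α ^ 2 + 2 * θ ^ 2 * α * β - 10 * θ ^ 2 * α * ξ - 4 * θ ^ 2 * α * s + 10 * θ ^ 2 * α * t - 6 * θ ^ 2 * α + 4 * θ ^ 2 * β * ξ - 2 * θ ^ 2 * β * s - 4 * θ ^ 2 * β * t + 4 * θ ^ 2 * β + 2 * θ ^ 2 * ξ * t - θ ^ 2 * ξ - 4 * θ ^ 2 * s + 2 * θ ^ 2 * t - 2 * θ ^ 2 - 8 * θ * α ^ 3 - 16 * θ * α ^ 2 * ξ + 8 * θ * α ^ 2 * s + 16 * θ * α ^ 2 * t - 26 * θ * α ^ 2 - 16 * θ * α * β * ξ + 16 * θ * α * β * t - 12 * θ * α * β - 28 * θ * α * ξ + 10 * θ * α * s + 30 * θ * α * t - 28 * θ * α - 10 * θ * β * ξ - 4 * θ * β * s + 10 * θ * β * t + 2 * θ * ξ * s - θ * ξ + 2 * θ * s + 13 * θ * t - θ * r - 10 * θ - 8 * α ^ 2 * β - 2 * α ^ 2 - 16 * α * β * ξ + 8 * α * β * s + 16 * α * β * t - 20 *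 α * β - 4 * α * ξ + 2 * α * s + 4 * α * t - 5 * α - 8 * β ^ 2 * ξ + 8 * β ^ 2 * t - 8 * β ^ 2 - 16 * β * ξ + 4 * β * s + 18 * β * t - 14 * β + 4 * ξ * r - 3 * ξ + s + 4 * t - 3 - 19 * θ * κ) θ α β (ι ξ) (ι S) (ι T) (ι r)
  · push_cast at hθ ⊢
    simp only [map_sub, map_add, map_one, map_intCast]
    rw [hS', hT']
    generalize ι ξ = ξ at *
    generalize ι r = r at *
    generalize ι s = s at *
    generalize ι t = t at *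
    generalize (α : R) = α at *
    generalize (β : R) = β at *
    generalize (k₁ : R) = k₁ at *
    generalize (k₂ : R) = k₂ at *
    linear_combination ((fun (θ α β ξ s t r : R) => -4 * θ ^ 3 * ξ + 4 * θ ^ 3 * t - 4 * θ ^ 3 - 4 * θ ^ 2 * α - 8 * θ ^ 2 * ξ + 4 * θ ^ 2 * s + 8 * θ ^ 2 * t - 8 * θ ^ 2 + 16 * θ * α * ξ - 16 * θ * α * t + 8 * θ * α + 8 * θ * ξ + 8 * θ * s - 8 * θ * t + 7 * θ + 16 * α ^ 2 + 32 * α * ξ - 16 * α * s - 32 * α * t + 40 * α + 16 * β * ξ - 16 * β * t + 16 * β + 28 * ξ - 8 * s - 32 * t + 24) θ α β ξ (s + k₁) (t + k₂) r) * hθ - 76 * θ * hκ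

end ring

/-- The class of a point over `ℚ_2`, case `a = 3`, `b = 1` modulo `4`. -/
theorem pt2b : ∀ a b : ℤ, a % 4 = 3 → b % 4 = 1 → ∀ (g₁ g₂ : ℤ) (r s t : ℚ_[2]),
    ‖r - ((g₁ * (1 + g₂) : ℤ) : ℚ_[2])‖ < 1 → ‖s‖ ≤ 1 → ‖t‖ ≤ 1 →
    (Even g₁ ∧ Even g₂) ∨ (Odd g₁ ∧ Odd g₂) →
    PL2 a b (pol ℚ_[2] g₁ g₂ r s t) := by
  intro a b ha4 hb4 g₁ g₂ r s t hr hs ht hg
  have ha : Odd a := Int.odd_iff.2 (by omega)
  have hb : Odd b := Int.odd_iff.2 (by omega)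
  have h2 := notwo ha hb
  haveI : Fact (Irreducible (fp a b)) := ⟨fp_irr h2⟩
  obtain ⟨s', hs'⟩ : ∃ s' : ℤ_[2], s = s' := ⟨⟨s, hs⟩, rfl⟩
  obtain ⟨t', ht'⟩ : ∃ t' : ℤ_[2], t = t' := ⟨⟨t, ht⟩, rfl⟩
  obtain ⟨r', hr'⟩ : ∃ r' : ℤ_[2], r = ((g₁ * (1 + g₂) : ℤ) : ℚ_[2]) + 2 * r' := by
    obtain ⟨z, hz⟩ : ∃ z : ℤ_[2], r - ((g₁ * (1 + g₂) : ℤ) : ℚ_[2]) = z := ⟨⟨_, hr.le⟩, rfl⟩
    have h3 : ‖z‖ < 1 := by
      have := hr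
      rw [hz] at this
      exact this
    rw [PadicInt.norm_lt_one_iff_dvd] at h3
    obtain ⟨y, hy⟩ := h3
    refine ⟨y, ?_⟩
    have h4 := congrArg (fun z : ℤ_[2] => (z : ℚ_[2])) hy
    simp only [PadicInt.coe_mul, PadicInt.coe_natCast] at h4
    rw [h4] at hz
    push_cast at hz ⊢
    linear_combination hz
  subst hs' ht' hr'
  have hev : ∀ x : ℤ_[2], (SR a b).subtype (io a b x) = AdjoinRoot.of (fp a b) (x : ℚ_[2]) :=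
    fun x => rfl
  have hth : (SR a b).subtype (th a b) = AdjoinRoot.root (fp a b) := rfl
  have h1ne := th_ne a b h2
  have hgen := th_gen a b
  have hθ := th3 a b
  rw [pl2_iff]
  unfold PP
  rw [mk_pol]
  obtain ⟨a', ha'⟩ := ha
  obtain ⟨b', hb'⟩ := hb
  rcases hg with ⟨⟨k₁, hk₁⟩, ⟨k₂, hk₂⟩⟩ | ⟨hg1, hg2⟩
  · left
    obtain ⟨g, hg⟩ := sq_case (io a b) (th a b) ha' hb' hθ hgen
      (r' + (k₁ * (1 + 2 * k₂) : ℤ)) (s' + (k₁ : ℤ)) (t' + (k₂ : ℤ))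
    refine ⟨(SR a b).subtype g, ?_⟩
    have h5 := congrArg (SR a b).subtype hg
    simp only [map_add, map_mul, map_pow, map_one, map_intCast, map_ofNat, hev, hth] at h5
    rw [h5]
    simp only [map_add, map_mul, map_intCast, map_ofNat]
    subst hk₁ hk₂
    push_cast
    ring
  · right
    obtain ⟨α, rfl⟩ : ∃ α, a = 3 + 4 * α := ⟨(a - 3) / 4, by omega⟩
    obtain ⟨β, rfl⟩ : ∃ β, b = 1 + 4 * β := ⟨(b - 1) / 4, by omega⟩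
    obtain ⟨k₁, rfl⟩ := hg1
    obtain ⟨k₂, rfl⟩ := hg2
    obtain ⟨ξ, hξ⟩ := root_ex 0 (2 * α + 1) β
    have hξ' := congrArg (PadicInt.Coe.ringHom (p := 2)) hξ
    have hco : PadicInt.Coe.ringHom (p := 2) ξ = (ξ : ℚ_[2]) := rfl
    simp only [map_add, map_mul, map_pow, map_ofNat, map_intCast, map_one, map_zero, hco] at hξ'
    have hξ2 := congrArg (io (3 + 4 * α) (1 + 4 * β)) hξ
    simp only [map_add, map_mul, map_pow, map_ofNat, map_intCast, map_one, map_zero] at hξ2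
    refine ⟨4 * ξ, 1, one_ne_zero, ?_, ?_⟩
    · push_cast at hξ' ⊢
      linear_combination (-4) * hξ'
    · obtain ⟨g, hg⟩ := pt_two (io (3 + 4 * α) (1 + 4 * β)) (th (3 + 4 * α) (1 + 4 * β)) α β k₁ k₂ ξ
        (r' + ((2 * k₁ + 1) * (k₂ + 1) : ℤ)) s' t'
        (-8 * (io (3 + 4 * α) (1 + 4 * β) ξ) ^ 3 - 2 * α * io (3 + 4 * α) (1 + 4 * β) ξ -
          io (3 + 4 * α) (1 + 4 * β) ξ) hθ hgen h1ne (by
          push_cast at hξ2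
          linear_combination hξ2)
      refine ⟨(SR (3 + 4 * α) (1 + 4 * β)).subtype g, ?_⟩
      have h5 := congrArg (SR (3 + 4 * α) (1 + 4 * β)).subtype hg
      simp only [map_add, map_sub, map_mul, map_pow, map_one, map_intCast, map_ofNat, hev, hth] at h5
      rw [h5]
      simp only [map_add, map_mul, map_intCast, map_ofNat]
      push_cast
      ring

theorem nrm_two : ‖(2 : ℚ_[2])‖ = 1 / 2 := by
  have := Padic.norm_p (p := 2)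
  rw [Nat.cast_ofNat] at this
  rw [this]
  norm_num

theorem c2 : ((2 : ℤ_[2]) : ℚ_[2]) = 2 := rfl

theorem c4 : ((4 : ℤ_[2]) : ℚ_[2]) = 4 := rfl

theorem exists_int (q : ℚ) (hq : Odd q.den) : ∃ z : ℤ_[2], (z : ℚ_[2]) = (q : ℚ_[2]) := by
  have h : ‖(q : ℚ_[2])‖ ≤ 1 := by
    apply Padic.norm_rat_le_one
    intro h
    exact (Nat.not_even_iff_odd.2 hq) (even_iff_two_dvd.2 h)
  exact ⟨⟨(q : ℚ_[2]), h⟩, rfl⟩

/-- the classes which come from points -/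
def Cl (a b g₁ g₂ : ℤ) : Prop :=
  (Even g₁ ∧ Even g₂) ∨
  ((4 : ℤ) ∣ a - b ∧ (4 : ℤ) ∣ 2 * g₁ - (1 - a) ∧ (4 : ℤ) ∣ 2 * g₂ - (3 - a)) ∨
  (a % 4 = 3 ∧ b % 4 = 1 ∧ Odd g₁ ∧ Odd g₂)

theorem pt_all (a b : ℤ) (ha : Odd a) (hab : (4 : ℤ) ∣ a - b ∨ (a % 4 = 3 ∧ b % 4 = 1))
    (g₁ g₂ : ℤ) (r s t : ℚ_[2]) (hr : ‖r - ((g₁ * (1 + g₂) : ℤ) : ℚ_[2])‖ < 1) (hs : ‖s‖ ≤ 1)
    (ht : ‖t‖ ≤ 1) (h : Cl a b g₁ g₂) : PL2 a b (pol ℚ_[2] g₁ g₂ r s t) := by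
  rcases h with h | ⟨h0, h⟩ | ⟨h3, h1, h⟩
  · rcases hab with h' | ⟨h3, h1⟩
    · exact pt2 a b ha h' g₁ g₂ r s t hr hs ht (Or.inl h)
    · exact pt2b a b h3 h1 g₁ g₂ r s t hr hs ht (Or.inl h)
  · exact pt2 a b ha h0 g₁ g₂ r s t hr hs ht (Or.inr h)
  · exact pt2b a b h3 h1 g₁ g₂ r s t hr hs ht (Or.inr h)

theorem loc2_of {L : Type} [Field L] [NumberField L] {a b : ℤ} {θ : L} (hc : IsCub a b θ)
    (ha : Odd a) (hab : (4 : ℤ) ∣ a - b ∨ (a % 4 = 3 ∧ b % 4 = 1)) (x c : L) (g₁ g₂ : ℤ)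
    (R s t : ℚ) (zr zs zt : ℤ_[2])
    (hR : (R : ℚ_[2]) - ((g₁ * (1 + g₂) : ℤ) : ℚ_[2]) = 2 * (zr : ℚ_[2]))
    (hs : (s : ℚ_[2]) = zs) (ht : (t : ℚ_[2]) = zt)
    (hα : x = c ^ 2 * aeval θ (pol ℚ g₁ g₂ R s t)) (h5 : Cl a b g₁ g₂) : Loc2 a b θ x := by
  obtain ⟨k, hk⟩ := hc.exists_poly c
  set P : ℚ[X] := pol ℚ g₁ g₂ R s t with hP
  have e1 : aeval θ (k ^ 2 * P) = x := by
    rw [map_mul, map_pow, hk, hα]
  have h6 := pt_all a b ha hab g₁ g₂ ((R : ℚ) : ℚ_[2]) s t (by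
    rw [hR, norm_mul, nrm_two]
    have := zr.2
    linarith) (by rw [hs]; exact zs.2) (by rw [ht]; exact zt.2) h5
  rw [← pol_map, ← hP] at h6
  intro h' hh'
  have h7 : PL ℚ_[2] a b ((k.map (algebraMap ℚ ℚ_[2])) ^ 2 * P.map (algebraMap ℚ ℚ_[2])) :=
    pl_sq _ h6
  rw [← Polynomial.map_pow, ← Polynomial.map_mul] at h7
  exact N951.PV.pl_congr (cast_congr hc ℚ_[2] (e1.trans hh'.symm)) h7

theorem aeval_pol {L : Type} [Field L] [CharZero L] (θ : L) (g₁ g₂ : ℤ) (r s t : ℚ) :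
    aeval θ (pol ℚ g₁ g₂ r s t) = 1 + 2 * ((g₁ : L) * θ + (g₂ : L) * θ ^ 2) +
      4 * ((r : L) + (s : L) * θ + (t : L) * θ ^ 2) := by
  unfold pol
  simp

theorem pol_mul {L : Type} [Field L] [CharZero L] {a b : ℤ} {θ : L}
    (hr : θ ^ 3 + (a : L) * θ + (b : L) = 0) (g₁ g₂ g₁' g₂' : ℤ) (R s t R' s' t' : ℚ) :
    aeval θ (pol ℚ g₁ g₂ R s t) * aeval θ (pol ℚ g₁' g₂' R' s' t') =
    aeval θ (pol ℚ (g₁ + g₁') (g₂ + g₂')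
      (R + R' - b * (g₁ * g₂' + g₂ * g₁') + 2 * (-b * (g₁ * t' + g₂ * s') - b * (g₁' * t + g₂' * s)) +
        4 * (R * R' - b * (s * t' + t * s')))
      (s + s' + (-a * (g₁ * g₂' + g₂ * g₁') - b * g₂ * g₂') +
        2 * ((g₁ * R' - a * (g₁ * t' + g₂ * s') - b * g₂ * t') +
          (g₁' * R - a * (g₁' * t + g₂' * s) - b * g₂' * t)) +
        4 * (R * s' + s * R' - a * (s * t' + t * s') - b * t * t'))
      (t + t' + (g₁ * g₁' - a * g₂ * g₂') +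
        2 * ((g₁ * s' + g₂ * R' - a * g₂ * t') + (g₁' * s + g₂' * R - a * g₂' * t)) +
        4 * (R * t' + s * s' + t * R' - a * t * t'))) := by
  rw [aeval_pol, aeval_pol, aeval_pol]
  push_cast
  linear_combination (4 * ((g₁ : L) * g₂' + g₂ * g₁' + g₂ * g₂' * θ) +
    8 * ((g₁ : L) * t' + g₂ * s' + g₂ * t' * θ + (g₁' * t + g₂' * s + g₂' * t * θ)) +
    16 * ((s : L) * t' + t * s' + t * t' * θ)) * hr

theorem cl_mulA {a g₁ g₂ g₁' g₂' : ℤ} (ha : Odd a)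
    (h : ¬ ((Even g₁ ∧ Even g₂) ∨ ((4 : ℤ) ∣ 2 * g₁ - (1 - a) ∧ (4 : ℤ) ∣ 2 * g₂ - (3 - a))))
    (h' : ¬ ((Even g₁' ∧ Even g₂') ∨ ((4 : ℤ) ∣ 2 * g₁' - (1 - a) ∧ (4 : ℤ) ∣ 2 * g₂' - (3 - a)))) :
    (Even (g₁ + g₁') ∧ Even (g₂ + g₂')) ∨
      ((4 : ℤ) ∣ 2 * (g₁ + g₁') - (1 - a) ∧ (4 : ℤ) ∣ 2 * (g₂ + g₂') - (3 - a)) := by
  obtain ⟨k, rfl⟩ := ha
  simp only [Int.even_iff] at *
  omega

theorem cl_mulB {g₁ g₂ g₁' g₂' : ℤ}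
    (h : ¬ ((Even g₁ ∧ Even g₂) ∨ (Odd g₁ ∧ Odd g₂)))
    (h' : ¬ ((Even g₁' ∧ Even g₂') ∨ (Odd g₁' ∧ Odd g₂'))) :
    (Even (g₁ + g₁') ∧ Even (g₂ + g₂')) ∨ (Odd (g₁ + g₁') ∧ Odd (g₂ + g₂')) := by
  simp only [Int.even_iff, Int.odd_iff] at *
  omega

theorem cl_mul {a b g₁ g₂ g₁' g₂' : ℤ} (ha : Odd a)
    (hab : (4 : ℤ) ∣ a - b ∨ (a % 4 = 3 ∧ b % 4 = 1)) (h : ¬ Cl a b g₁ g₂)
    (h' : ¬ Cl a b g₁' g₂') : Cl a b (g₁ + g₁') (g₂ + g₂') := by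
  unfold Cl at *
  rcases hab with hab | ⟨h3, h1⟩
  · have := cl_mulA ha (g₁ := g₁) (g₂ := g₂) (g₁' := g₁') (g₂' := g₂')
      (fun hh => h (by rcases hh with hh | hh; exacts [Or.inl hh, Or.inr (Or.inl ⟨hab, hh⟩)]))
      (fun hh => h' (by rcases hh with hh | hh; exacts [Or.inl hh, Or.inr (Or.inl ⟨hab, hh⟩)]))
    rcases this with hh | hh
    · exact Or.inl hh
    · exact Or.inr (Or.inl ⟨hab, hh⟩)
  · have := cl_mulB (g₁ := g₁) (g₂ := g₂) (g₁' := g₁') (g₂' := g₂')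
      (fun hh => h (by rcases hh with hh | hh; exacts [Or.inl hh, Or.inr (Or.inr ⟨h3, h1, hh⟩)]))
      (fun hh => h' (by rcases hh with hh | hh; exacts [Or.inl hh, Or.inr (Or.inr ⟨h3, h1, hh⟩)]))
    rcases this with hh | hh
    · exact Or.inl hh
    · exact Or.inr (Or.inr ⟨h3, h1, hh⟩)

/-- Part L2I. -/
theorem l2i : Pool.Agent.H62.PR.S_L2I := by
  intro L _ _ a b θ hc hz hab x y hx hy hNx hNy hLx hLy
  have h2 := Pool.Agent.N907.PV.t_NF2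
  have hb : Odd b := by
    rw [← Int.not_even_iff_odd]
    intro he
    apply hz 0
    rw [even_iff_two_dvd] at he
    simpa using he
  have hab : (4 : ℤ) ∣ a - b ∨ (a % 4 = 3 ∧ b % 4 = 1) := by
    rw [Int.odd_iff] at hb
    omega
  have ha : Odd a := by
    rw [Int.odd_iff] at hb ⊢
    omega
  obtain ⟨c, g₁, g₂, r, s, t, hc0, hr, hs, ht, hα⟩ := h2 L a b θ hc ha hb x hx hNx
  obtain ⟨c', g₁', g₂', r', s', t', hc0', hr', hs', ht', hα'⟩ := h2 L a b θ hc ha hb y hy hNy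
  obtain ⟨zr, hzr⟩ := exists_int r hr
  obtain ⟨zs, hzs⟩ := exists_int s hs
  obtain ⟨zt, hzt⟩ := exists_int t ht
  obtain ⟨zr', hzr'⟩ := exists_int r' hr'
  obtain ⟨zs', hzs'⟩ := exists_int s' hs'
  obtain ⟨zt', hzt'⟩ := exists_int t' ht'
  have n1 : ¬ Cl a b g₁ g₂ := by
    intro h
    apply hLx
    exact loc2_of hc ha hab x c g₁ g₂ _ s t zr zs zt (by rw [hzr]; push_cast; ring) hzs.symm
      hzt.symm hα h
  have n2 : ¬ Cl a b g₁' g₂' := by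
    intro h
    apply hLy
    exact loc2_of hc ha hab y c' g₁' g₂' _ s' t' zr' zs' zt' (by rw [hzr']; push_cast; ring)
      hzs'.symm hzt'.symm hα' h
  have n3 := cl_mul ha hab n1 n2
  obtain ⟨b', hb'⟩ := hb
  obtain ⟨R, hR⟩ : ∃ R : ℚ, R = ((g₁ * (1 + g₂) : ℤ) : ℚ) + 2 * r := ⟨_, rfl⟩
  obtain ⟨R', hR'⟩ : ∃ R' : ℚ, R' = ((g₁' * (1 + g₂') : ℤ) : ℚ) + 2 * r' := ⟨_, rfl⟩
  obtain ⟨zR, hzR⟩ : ∃ z : ℤ_[2], z = g₁ * (1 + g₂) + 2 * zr := ⟨_, rfl⟩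
  obtain ⟨zR', hzR'⟩ : ∃ z : ℤ_[2], z = g₁' * (1 + g₂') + 2 * zr' := ⟨_, rfl⟩
  have cR : (R : ℚ_[2]) = zR := by rw [hR, hzR]; push_cast; rw [c2, hzr]
  have cR' : (R' : ℚ_[2]) = zR' := by rw [hR', hzR']; push_cast; rw [c2, hzr']
  refine loc2_of hc ha hab (x * y) (c * c') (g₁ + g₁') (g₂ + g₂') _ _ _
    (zr + zr' - (b' + 1) * (g₁ * g₂' + g₂ * g₁') +
      (-b * (g₁ * zt' + g₂ * zs') - b * (g₁' * zt + g₂' * zs)) + 2 * (zR * zR' - b * (zs * zt' + zt * zs')))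
    (zs + zs' + (-a * (g₁ * g₂' + g₂ * g₁') - b * g₂ * g₂') +
        2 * ((g₁ * zR' - a * (g₁ * zt' + g₂ * zs') - b * g₂ * zt') +
          (g₁' * zR - a * (g₁' * zt + g₂' * zs) - b * g₂' * zt)) +
        4 * (zR * zs' + zs * zR' - a * (zs * zt' + zt * zs') - b * zt * zt'))
    (zt + zt' + (g₁ * g₁' - a * g₂ * g₂') +
        2 * ((g₁ * zs' + g₂ * zR' - a * g₂ * zt') + (g₁' * zs + g₂' * zR - a * g₂' * zt)) +
        4 * (zR * zt' + zs * zs' + zt * zR' - a * zt * zt')) ?_ ?_ ?_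
    (by
      rw [hα, hα', ← hR, ← hR', mul_mul_mul_comm, ← mul_pow, pol_mul hc.root]) n3
  · have hbb : (b : ℚ_[2]) = 2 * b' + 1 := by rw [hb']; push_cast; ring
    push_cast
    rw [cR, cR', ← hzs, ← hzt, ← hzs', ← hzt', hbb, c2]
    have e1 : (zR : ℚ_[2]) = g₁ * (1 + g₂) + 2 * zr := by rw [hzR]; push_cast; rw [c2]
    have e2 : (zR' : ℚ_[2]) = g₁' * (1 + g₂') + 2 * zr' := by rw [hzR']; push_cast; rw [c2]
    linear_combination e1 + e2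
  · push_cast
    rw [cR, cR', ← hzs, ← hzt, ← hzs', ← hzt', c2, c4]
  · push_cast
    rw [cR, cR', ← hzs, ← hzt, ← hzs', ← hzt', c2, c4]

end Pool.Agent.H66.PR.L2I
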