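import Pool.Agent.H62.PR.Par0

/-!
# Project PR, part PARL: linear algebra of two adjacent maximal isotropic subspaces
-/

set_option autoImplicit false
set_option linter.all false

open scoped Classical

namespace Pool.Agent.H66.PR.Parl

abbrev F2 := ZMod 2

variable {ι : Type} [Fintype ι]

/-- the space -/
abbrev V (ι : Type) := ι → ZMod 2 × ZMod 2

open Pool.Agent.H62.PR (LJ)

/-- the bilinear form -/
noncomputable def B : LinearMap.BilinForm F2 (V ι) :=
  LinearMap.mk₂ F2 (fun x y => ∑ j, ((x j).1 * (y j).2 + (x j).2 * (y j).1))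
    (by intro x x' y; rw [← Finset.sum_add_distrib]; exact Finset.sum_congr rfl fun j _ => by simp; ring)
    (by intro c x y; rw [smul_eq_mul, Finset.mul_sum]; exact Finset.sum_congr rfl fun j _ => by simp; ring)
    (by intro x y y'; rw [← Finset.sum_add_distrib]; exact Finset.sum_congr rfl fun j _ => by simp; ring)
    (by intro c x y; rw [smul_eq_mul, Finset.mul_sum]; exact Finset.sum_congr rfl fun j _ => by simp; ring)

theorem B_apply (x y : V ι) : B x y = ∑ j, ((x j).1 * (y j).2 + (x j).2 * (y j).1) := rfl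

theorem B_symm (x y : V ι) : B x y = B y x := by
  rw [B_apply, B_apply]; exact Finset.sum_congr rfl fun j _ => by ring

/-- the quadratic form -/
def q (x : V ι) : F2 := ∑ j, (x j).1 * (x j).2

theorem q_add (x y : V ι) : q (x + y) = q x + q y + B x y := by
  rw [q, q, q, B_apply, ← Finset.sum_add_distrib, ← Finset.sum_add_distrib]
  exact Finset.sum_congr rfl fun j _ => by simp; ring

theorem B_nondeg : (B (ι := ι)).Nondegenerate := by
  have key : ∀ x : V ι, (∀ y, B x y = 0) → x = 0 := by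
    intro x hx
    funext j
    have h1 := hx (Pi.single j (0, 1))
    have h2 := hx (Pi.single j (1, 0))
    rw [B_apply, Finset.sum_eq_single j] at h1 h2
    · simp at h1 h2
      exact Prod.ext h1 h2
    · intro i _ hi; simp [Pi.single_eq_of_ne hi]
    · intro h; exact absurd (Finset.mem_univ _) h
    · intro i _ hi; simp [Pi.single_eq_of_ne hi]
    · intro h; exact absurd (Finset.mem_univ _) h
  refine ⟨fun x hx => key x hx, fun x hx => key x fun y => ?_⟩
  rw [B_symm]; exact hx y

theorem B_refl : (B (ι := ι)).IsRefl := by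
  intro x y h; rw [B_symm]; exact h

open LinearMap.BilinForm Module

theorem finrankV : finrank F2 (V ι) = 2 * Fintype.card ι := by
  rw [Module.finrank_pi_fintype]
  simp [Module.finrank_prod]
  ring

theorem mem_orth (W : Submodule F2 (V ι)) (x : V ι) : x ∈ B.orthogonal W ↔ ∀ y ∈ W, B y x = 0 :=
  Iff.rfl

theorem iso {S : Submodule F2 (V ι)} (hS : ∀ x ∈ S, q x = 0) {x y : V ι} (hx : x ∈ S)
    (hy : y ∈ S) : B x y = 0 := by
  have := q_add x y
  rw [hS _ (S.add_mem hx hy), hS _ hx, hS _ hy] at this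
  simpa using this.symm

theorem lag {S : Submodule F2 (V ι)} (hS : ∀ x ∈ S, q x = 0)
    (hn : Fintype.card ι ≤ finrank F2 S) : finrank F2 S = Fintype.card ι ∧ B.orthogonal S = S := by
  have h1 : S ≤ B.orthogonal S := fun x hx y hy => iso hS hy hx
  have h2 := Submodule.finrank_mono h1
  have h3 := finrank_orthogonal B_nondeg S
  rw [finrankV] at h3
  have h4 : finrank F2 S = Fintype.card ι := by omega
  refine ⟨h4, ?_⟩
  symm
  exact Submodule.eq_of_le_of_finrank_eq h1 (by omega)

theorem orth_sup (M U : Submodule F2 (V ι)) :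
    B.orthogonal (M ⊔ U) = B.orthogonal M ⊓ B.orthogonal U := by
  ext x
  rw [Submodule.mem_inf, mem_orth, mem_orth, mem_orth]
  constructor
  · intro h
    exact ⟨fun y hy => h y (Submodule.mem_sup_left hy), fun y hy => h y (Submodule.mem_sup_right hy)⟩
  · rintro ⟨h1, h2⟩ y hy
    obtain ⟨a, ha, b, hb, rfl⟩ := Submodule.mem_sup.1 hy
    rw [map_add, LinearMap.add_apply, h1 a ha, h2 b hb, add_zero]

/-- the coordinate Lagrangian as a submodule -/
def MJ (J : Finset ι) : Submodule F2 (V ι) where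
  carrier := LJ J
  add_mem' := by
    rintro x y ⟨hx, hx'⟩ ⟨hy, hy'⟩
    exact ⟨fun i hi => by simp [hx i hi, hy i hi], fun i hi => by simp [hx' i hi, hy' i hi]⟩
  zero_mem' := ⟨fun i hi => rfl, fun i hi => rfl⟩
  smul_mem' := by
    rintro c x ⟨hx, hx'⟩
    exact ⟨fun i hi => by simp [hx i hi], fun i hi => by simp [hx' i hi]⟩

theorem mem_MJ (J : Finset ι) (x : V ι) : x ∈ MJ J ↔ x ∈ LJ J := Iff.rfl

theorem MJ_sing (J : Finset ι) : ∀ x ∈ MJ J, q x = 0 := by
  rintro x ⟨h1, h2⟩
  refine Finset.sum_eq_zero fun i _ => ?_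
  by_cases hi : i ∈ J
  · rw [h1 i hi, mul_zero]
  · rw [h2 i hi, zero_mul]

theorem MJ_card (J : Finset ι) : Fintype.card ι ≤ finrank F2 (MJ J) := by
  let f : (ι → F2) →ₗ[F2] V ι :=
    { toFun := fun x i => if i ∈ J then (x i, 0) else (0, x i)
      map_add' := by
        intro x y; funext i; by_cases hi : i ∈ J <;> simp [hi]
      map_smul' := by
        intro c x; funext i; by_cases hi : i ∈ J <;> simp [hi] }
  have hf : Function.Injective f := by
    intro x y h
    funext i
    have h1 : f x i = f y i := by rw [h]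
    by_cases hi : i ∈ J
    · simpa [f, hi] using h1
    · simpa [f, hi] using h1
  have h2 := LinearMap.finrank_range_of_inj hf
  have h3 : LinearMap.range f ≤ MJ J := by
    rintro _ ⟨x, rfl⟩
    exact ⟨fun i hi => by simp [f, hi], fun i hi => by simp [f, hi]⟩
  have h4 := Submodule.finrank_mono h3
  rw [h2] at h4
  simpa using h4

theorem key (S S' M : Submodule F2 (V ι)) (hS : ∀ x ∈ S, q x = 0) (hS' : ∀ x ∈ S', q x = 0)
    (hM : ∀ x ∈ M, q x = 0) (h1 : Fintype.card ι ≤ finrank F2 S)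
    (h2 : Fintype.card ι ≤ finrank F2 S') (h3 : Fintype.card ι ≤ finrank F2 M)
    (hne : S ≠ S') (hU : Fintype.card ι ≤ finrank F2 (S ⊓ S' : Submodule F2 (V ι)) + 1) :
    finrank F2 (S ⊓ M : Submodule F2 (V ι)) = finrank F2 (S' ⊓ M : Submodule F2 (V ι)) + 1 ∨
    finrank F2 (S' ⊓ M : Submodule F2 (V ι)) = finrank F2 (S ⊓ M : Submodule F2 (V ι)) + 1 := by
  obtain ⟨s1, s2⟩ := lag hS h1
  obtain ⟨t1, t2⟩ := lag hS' h2
  obtain ⟨m1, m2⟩ := lag hM h3
  set n := Fintype.card ι with hn
  set U : Submodule F2 (V ι) := S ⊓ S' with hUd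
  have hU1 : finrank F2 U + 1 = n := by
    have : finrank F2 U < finrank F2 S := by
      apply Submodule.finrank_lt_finrank_of_lt
      refine lt_of_le_of_ne inf_le_left fun h => hne ?_
      have h5 : S ≤ S' := by rw [← h]; exact inf_le_right
      exact Submodule.eq_of_le_of_finrank_eq h5 (by omega)
    omega
  have hUo : finrank F2 (B.orthogonal U) = n + 1 := by
    rw [finrank_orthogonal B_nondeg, finrankV]; omega
  have hSU : S ≤ B.orthogonal U := fun x hx y hy => iso hS (inf_le_left (a := S) hy) hx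
  have hSU' : S' ≤ B.orthogonal U := fun x hx y hy => iso hS' (inf_le_right (a := S) hy) hx
  have hsup : S ⊔ S' = B.orthogonal U := by
    apply Submodule.eq_of_le_of_finrank_eq (sup_le hSU hSU')
    have := Submodule.finrank_sup_add_finrank_inf_eq S S'
    rw [← hUd] at this
    omega
  have hMU : finrank F2 (M ⊓ B.orthogonal U : Submodule F2 (V ι)) =
      finrank F2 (M ⊓ U : Submodule F2 (V ι)) + 1 := by
    have h5 : M ⊓ B.orthogonal U = B.orthogonal (M ⊔ U) := by rw [orth_sup, m2]
    rw [h5, finrank_orthogonal B_nondeg, finrankV]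
    have := Submodule.finrank_sup_add_finrank_inf_eq M U
    have h6 : finrank F2 (M ⊔ U : Submodule F2 (V ι)) ≤ 2 * n := by
      have := Submodule.finrank_le (M ⊔ U : Submodule F2 (V ι))
      rwa [finrankV] at this
    omega
  have hun : ∀ m ∈ M ⊓ B.orthogonal U, m ∈ S ∨ m ∈ S' := by
    rintro m ⟨hm, hmU⟩
    have hmU' : m ∈ S ⊔ S' := by rw [hsup]; exact hmU
    obtain ⟨s, hs, s', hs', rfl⟩ := Submodule.mem_sup.1 hmU'
    have h5 : B s s' = 0 := by
      have := q_add s s'
      rw [hM _ hm, hS _ hs, hS' _ hs'] at this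
      simpa using this.symm
    by_cases h6 : s ∈ S'
    · right; exact S'.add_mem h6 hs'
    · left
      refine S.add_mem hs ?_
      rw [← s2]
      have h7 : U ⊔ Submodule.span F2 {s} = S := by
        apply Submodule.eq_of_le_of_finrank_le
        · refine sup_le inf_le_left ?_
          rw [Submodule.span_singleton_le_iff_mem]; exact hs
        · have h8 : U < U ⊔ Submodule.span F2 {s} := by
            refine lt_of_le_of_ne le_sup_left fun h => h6 ?_
            have h9 : s ∈ U ⊔ Submodule.span F2 {s} :=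
              Submodule.mem_sup_right (Submodule.mem_span_singleton_self s)
            rw [← h] at h9
            exact h9.2
          have := Submodule.finrank_lt_finrank_of_lt h8
          omega
      intro y hy
      rw [← h7] at hy
      obtain ⟨u, hu, v, hv, rfl⟩ := Submodule.mem_sup.1 hy
      obtain ⟨c, rfl⟩ := Submodule.mem_span_singleton.1 hv
      show B (u + c • s) s' = 0
      rw [map_add, LinearMap.add_apply, map_smul,
        LinearMap.smul_apply, h5, smul_zero, add_zero]
      exact iso hS' hu.2 hs'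
  have hor : M ⊓ B.orthogonal U ≤ S ∨ M ⊓ B.orthogonal U ≤ S' := by
    by_contra hcon
    push Not at hcon
    obtain ⟨hc1, hc2⟩ := hcon
    obtain ⟨a, ha, ha'⟩ := Set.not_subset.1 hc1
    obtain ⟨b, hb, hb'⟩ := Set.not_subset.1 hc2
    have ha2 : a ∈ S' := (hun a ha).resolve_left ha'
    have hb2 : b ∈ S := (hun b hb).resolve_right hb'
    rcases hun (a + b) (Submodule.add_mem _ ha hb) with h | h
    · exact ha' ((S.add_mem_iff_left hb2).1 h)
    · exact hb' ((S'.add_mem_iff_right ha2).1 h)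
  rcases hor with h | h
  · left
    have e1 : S ⊓ M = M ⊓ B.orthogonal U :=
      le_antisymm (le_inf inf_le_right (inf_le_left.trans hSU)) (le_inf h inf_le_left)
    have e2 : S' ⊓ M = M ⊓ U := by
      apply le_antisymm
      · refine le_inf inf_le_right (le_inf ?_ inf_le_left)
        exact (le_inf inf_le_right (inf_le_left.trans hSU')).trans h
      · exact le_inf (inf_le_right.trans inf_le_right) inf_le_left
    rw [e1, e2, hMU]
  · right
    have e1 : S' ⊓ M = M ⊓ B.orthogonal U :=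
      le_antisymm (le_inf inf_le_right (inf_le_left.trans hSU')) (le_inf h inf_le_left)
    have e2 : S ⊓ M = M ⊓ U := by
      apply le_antisymm
      · refine le_inf inf_le_right (le_inf inf_le_left ?_)
        exact (le_inf inf_le_right (inf_le_left.trans hSU)).trans h
      · exact le_inf (inf_le_right.trans inf_le_left) inf_le_left
    rw [e1, e2, hMU]

theorem card_sub (S : Submodule F2 (V ι)) : Nat.card S = 2 ^ finrank F2 S := by
  have := Module.natCard_eq_pow_finrank (K := F2) (V := S)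
  simpa using this

theorem parl0 (Λ Λ' : AddSubgroup (ι → ZMod 2 × ZMod 2))
  (h1 : ∀ l ∈ Λ, ∑ i, (l i).1 * (l i).2 = 0) (h2 : ∀ l ∈ Λ', ∑ i, (l i).1 * (l i).2 = 0)
  (h3 : 2 ^ Fintype.card ι ≤ Nat.card Λ) (h4 : 2 ^ Fintype.card ι ≤ Nat.card Λ') (h5 : Λ ≠ Λ')
  (h6 : 2 ^ Fintype.card ι ≤ 2 * Nat.card (Λ ⊓ Λ' : AddSubgroup (ι → ZMod 2 × ZMod 2)))
  (J : Finset ι) (d d' : ℕ)
  (h7 : Nat.card {l : ι → ZMod 2 × ZMod 2 // l ∈ Λ ∧ l ∈ LJ J} = 2 ^ d)
  (h8 : Nat.card {l : ι → ZMod 2 × ZMod 2 // l ∈ Λ' ∧ l ∈ LJ J} = 2 ^ d') : d % 2 ≠ d' % 2 := by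
  let S : Submodule F2 (V ι) := AddSubgroup.toZModSubmodule 2 Λ
  let S' : Submodule F2 (V ι) := AddSubgroup.toZModSubmodule 2 Λ'
  have mS : ∀ x, x ∈ S ↔ x ∈ Λ := fun x => Iff.rfl
  have mS' : ∀ x, x ∈ S' ↔ x ∈ Λ' := fun x => Iff.rfl
  have c1 : 2 ^ Fintype.card ι ≤ 2 ^ finrank F2 S := by rw [← card_sub]; exact h3
  have c2 : 2 ^ Fintype.card ι ≤ 2 ^ finrank F2 S' := by rw [← card_sub]; exact h4
  have c3 : 2 ^ Fintype.card ι ≤ 2 ^ (finrank F2 (S ⊓ S' : Submodule F2 (V ι)) + 1) := by
    rw [pow_succ, ← card_sub, mul_comm]; exact h6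
  have l2 : (1 : ℕ) < 2 := by norm_num
  have hne : S ≠ S' := by
    intro h
    apply h5
    ext x
    rw [← mS, ← mS', h]
  have := key S S' (MJ J) h1 h2 (MJ_sing J) ((Nat.pow_le_pow_iff_right l2).1 c1)
    ((Nat.pow_le_pow_iff_right l2).1 c2) (MJ_card J) hne ((Nat.pow_le_pow_iff_right l2).1 c3)
  have e1 : 2 ^ finrank F2 (S ⊓ MJ J : Submodule F2 (V ι)) = 2 ^ d := by
    rw [← card_sub, ← h7]; rfl
  have e2 : 2 ^ finrank F2 (S' ⊓ MJ J : Submodule F2 (V ι)) = 2 ^ d' := by
    rw [← card_sub, ← h8]; rfl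
  have e3 := Nat.pow_right_injective (le_refl 2) e1
  have e4 := Nat.pow_right_injective (le_refl 2) e2
  omega

/-- Part PARL. -/
theorem parl : Pool.Agent.H62.PR.S_PARL := by
  intro ι _ Λ Λ' h1 h2 h3 h4 h5 h6 J d d' h7 h8
  exact parl0 Λ Λ' h1 h2 h3 h4 h5 h6 J d d' h7 h8

end Pool.Agent.H66.PR.Parl
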