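import Pool.Agent.H62.PR.Par0

/-!
# Project PR, part PRI: many primes `1` modulo `8` which are nearly equal
-/

set_option autoImplicit false
set_option linter.all false

open scoped Classical

namespace Pool.Agent.H66.PR.Pri

open ArithmeticFunction

open Pool.Agent.N922.PQ (IsPr)

/-- index of the geometric interval -/
noncomputable def ix (δ : ℝ) (n : ℕ) : ℕ := ⌊Real.log n / Real.log (1 + δ)⌋₊

theorem ix_le (δ : ℝ) (hδ : 0 < δ) (n : ℕ) (hn : 1 ≤ n) :
    (1 + δ) ^ ix δ n ≤ n ∧ (n : ℝ) < (1 + δ) ^ (ix δ n + 1) := by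
  have hL : 0 < Real.log (1 + δ) := Real.log_pos (by linarith)
  have hn0 : (0 : ℝ) < n := by exact_mod_cast hn
  have hl : 0 ≤ Real.log n / Real.log (1 + δ) :=
    div_nonneg (Real.log_nonneg (by exact_mod_cast hn)) hL.le
  have h1 : (ix δ n : ℝ) ≤ Real.log n / Real.log (1 + δ) := Nat.floor_le hl
  have h2 : Real.log n / Real.log (1 + δ) < (ix δ n : ℝ) + 1 := Nat.lt_floor_add_one _
  rw [le_div_iff₀ hL] at h1
  rw [div_lt_iff₀ hL] at h2
  constructor
  · rw [← Real.log_le_log_iff (by positivity) hn0, Real.log_pow]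
    exact h1
  · rw [← Real.log_lt_log_iff hn0 (by positivity), Real.log_pow]
    push_cast
    exact h2

theorem pri0 (N : ℤ) (r : ℕ) (δ : ℝ) (hδ : 0 < δ) : ∃ S : Finset ℤ, S.card = r ∧
    (∀ Q ∈ S, IsPr Q ∧ Q % 8 = 1 ∧ N < Q) ∧ ∀ Q ∈ S, ∀ Q' ∈ S, (Q : ℝ) ≤ (1 + δ) * (Q' : ℝ) := by
  by_contra hcon
  set K := r + N.toNat + 1 with hK
  have hL : 0 < Real.log (1 + δ) := Real.log_pos (by linarith)
  have hfib : ∀ (i : ℕ) (T : Finset ℕ), (∀ n ∈ T, n.Prime ∧ n % 8 = 1 ∧ ix δ n = i) → T.card ≤ K := by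
    intro i T hT
    by_contra hlt
    push Not at hlt
    have h1 : (T.filter fun n => n ≤ N.toNat).card ≤ N.toNat + 1 := by
      calc (T.filter fun n => n ≤ N.toNat).card ≤ (Finset.range (N.toNat + 1)).card := by
            apply Finset.card_le_card
            intro n hn
            rw [Finset.mem_filter] at hn
            rw [Finset.mem_range]; omega
        _ = N.toNat + 1 := Finset.card_range _
    have h2 := Finset.card_filter_add_card_filter_not (s := T) (fun n => n ≤ N.toNat)
    have h3 : r ≤ (T.filter fun n => ¬ n ≤ N.toNat).card := by omega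
    obtain ⟨T', hT', hc⟩ := Finset.exists_subset_card_eq h3
    apply hcon
    refine ⟨T'.map ⟨fun n : ℕ => (n : ℤ), Nat.cast_injective⟩, by rw [Finset.card_map, hc], ?_, ?_⟩
    · intro Q hQ
      rw [Finset.mem_map] at hQ
      obtain ⟨n, hn, rfl⟩ := hQ
      have h4 := hT' hn
      rw [Finset.mem_filter] at h4
      obtain ⟨hp, hm, _⟩ := hT n h4.1
      simp only [Function.Embedding.coeFn_mk]
      refine ⟨⟨by exact_mod_cast hp.pos, Nat.prime_iff_prime_int.1 hp⟩, by omega, by omega⟩
    · intro Q hQ Q' hQ'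
      rw [Finset.mem_map] at hQ hQ'
      obtain ⟨n, hn, rfl⟩ := hQ
      obtain ⟨n', hn', rfl⟩ := hQ'
      have h4 := hT' hn
      have h5 := hT' hn'
      rw [Finset.mem_filter] at h4 h5
      obtain ⟨hp, _, hi⟩ := hT n h4.1
      obtain ⟨hp', _, hi'⟩ := hT n' h5.1
      simp only [Function.Embedding.coeFn_mk, Int.cast_natCast]
      have h6 := (ix_le δ hδ n hp.pos).2
      have h7 := (ix_le δ hδ n' hp'.pos).1
      rw [hi, pow_succ] at h6
      rw [hi'] at h7
      nlinarith
  have hunit : IsUnit (1 : ZMod 8) := isUnit_one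
  refine vonMangoldt.not_summable_residueClass_prime_div hunit ?_
  set f : ℕ → ℝ := fun n => (if n.Prime then vonMangoldt.residueClass (1 : ZMod 8) n else 0) / n with hf
  have hf0 : ∀ n, 0 ≤ f n := by
    intro n
    rw [hf]
    simp only
    split_ifs
    · exact div_nonneg (vonMangoldt.residueClass_nonneg _ _) (Nat.cast_nonneg _)
    · simp
  set P : ℕ → Prop := fun n => n.Prime ∧ n % 8 = 1 with hP
  set g : ℕ → ℝ := fun i => (i + 1) * Real.log (1 + δ) * ((1 + δ)⁻¹) ^ i with hg
  have hg0 : ∀ i, 0 ≤ g i := by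
    intro i; rw [hg]; positivity
  have hgs : Summable g := by
    have hr : ‖(1 + δ)⁻¹‖ < 1 := by
      rw [Real.norm_of_nonneg (by positivity)]
      exact inv_lt_one_of_one_lt₀ (by linarith)
    have s1 := (summable_pow_mul_geometric_of_norm_lt_one 1 hr).mul_left (Real.log (1 + δ))
    have s2 := (summable_geometric_of_norm_lt_one hr).mul_left (Real.log (1 + δ))
    refine (s1.add s2).congr fun i => ?_
    rw [hg]; simp only; ring
  have hnP : ∀ n, ¬ P n → f n = 0 := by
    intro n hn
    rw [hf]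
    simp only
    by_cases hp : n.Prime
    · rw [if_pos hp]
      have : ¬ ((n : ZMod 8) = 1) := by
        intro h
        apply hn
        refine ⟨hp, ?_⟩
        have h1 : ((n : ℕ) : ZMod 8) = ((1 : ℕ) : ZMod 8) := by simpa using h
        rw [ZMod.natCast_eq_natCast_iff'] at h1
        exact h1
      rw [vonMangoldt.residueClass, Set.indicator_of_notMem (by exact this), zero_div]
    · rw [if_neg hp, zero_div]
  have hfP : ∀ n, P n → f n ≤ g (ix δ n) := by
    rintro n ⟨hp, hm⟩
    obtain ⟨h1, h2⟩ := ix_le δ hδ n hp.pos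
    have hn0 : (0 : ℝ) < n := by exact_mod_cast hp.pos
    have hln : Real.log n ≤ (ix δ n + 1) * Real.log (1 + δ) := by
      have := Real.log_le_log hn0 h2.le
      rw [Real.log_pow] at this
      push_cast at this
      exact this
    have hle : f n ≤ Real.log n / n := by
      rw [hf]
      simp only
      rw [if_pos hp]
      apply div_le_div_of_nonneg_right _ hn0.le
      rw [vonMangoldt.residueClass]
      refine (Set.indicator_le_self' (fun _ _ => vonMangoldt_nonneg) n).trans ?_
      rw [vonMangoldt_apply_prime hp]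
    refine hle.trans ?_
    rw [hg]
    simp only
    rw [div_le_iff₀ hn0]
    have hq : 1 ≤ ((1 + δ)⁻¹) ^ ix δ n * n := by
      rw [inv_pow, ← div_eq_inv_mul, one_le_div (by positivity)]
      exact h1
    have h3 : 0 ≤ ((ix δ n : ℝ) + 1) * Real.log (1 + δ) := by positivity
    calc Real.log n ≤ (ix δ n + 1) * Real.log (1 + δ) := hln
      _ ≤ (ix δ n + 1) * Real.log (1 + δ) * (((1 + δ)⁻¹) ^ ix δ n * n) :=
          le_mul_of_one_le_right h3 hq
      _ = _ := by ring
  refine summable_of_sum_le (c := K * ∑' i, g i) hf0 fun u => ?_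
  have e1 : ∑ n ∈ u, f n = ∑ n ∈ u.filter P, f n := by
    symm
    apply Finset.sum_subset (Finset.filter_subset _ _)
    intro n hn hn'
    apply hnP
    intro h
    exact hn' (Finset.mem_filter.2 ⟨hn, h⟩)
  rw [e1]
  calc ∑ n ∈ u.filter P, f n ≤ ∑ n ∈ u.filter P, g (ix δ n) :=
        Finset.sum_le_sum fun n hn => hfP n (Finset.mem_filter.1 hn).2
    _ = ∑ i ∈ (u.filter P).image (ix δ), ((u.filter P).filter fun n => ix δ n = i).card • g i :=
        Finset.sum_comp g (ix δ)
    _ ≤ ∑ i ∈ (u.filter P).image (ix δ), K * g i := by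
        apply Finset.sum_le_sum
        intro i _
        rw [nsmul_eq_mul]
        apply mul_le_mul_of_nonneg_right _ (hg0 i)
        have := hfib i ((u.filter P).filter fun n => ix δ n = i) (by
          intro n hn
          rw [Finset.mem_filter, Finset.mem_filter] at hn
          exact ⟨hn.1.2.1, hn.1.2.2, hn.2⟩)
        exact_mod_cast this
    _ = K * ∑ i ∈ (u.filter P).image (ix δ), g i := by rw [Finset.mul_sum]
    _ ≤ K * ∑' i, g i := by
        apply mul_le_mul_of_nonneg_left _ (Nat.cast_nonneg _)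
        exact hgs.sum_le_tsum _ fun i _ => hg0 i

/-- Part PRI. -/
theorem pri : Pool.Agent.H62.PR.S_PRI := fun N r δ hδ => pri0 N r δ hδ

end Pool.Agent.H66.PR.Pri
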